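import Pool.Agent.W_c2305b_h73.Defs

/-! Compact families: a local (Banach-Mazur) threshold gives one threshold for every
Hausdorff-compact family and all affine images. -/

open Set MeasureTheory TopologicalSpace Metric
open scoped Pointwise

namespace C2305b

theorem HexBound.mono {K : Set Pl} {N M : ℕ} (h : HexBound K N) (hNM : N ≤ M) : HexBound K M := by
  intro D hD1 hD2 hD3 n hn
  exact h D hD1 hD2 hD3 n (hNM.trans hn)

/-- Cancellation law. -/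
theorem smul_subset_of_subset_add {K0 K1 : Set Pl} (h1c : Convex ℝ K1)
    (h0 : IsCompact K0) (h1 : IsCompact K1) {t : ℝ} (ht0 : 0 ≤ t) (ht1 : t < 1)
    (h : K0 ⊆ K1 + t • K0) : (1 - t) • K0 ⊆ K1 := by
  intro x hx
  by_contra hxK
  obtain ⟨y, hy, rfl⟩ := hx
  obtain ⟨f, u, hf1, hf2⟩ := geometric_hahn_banach_closed_point h1c h1.isClosed hxK
  obtain ⟨z, hz, hzmax⟩ := h0.exists_isMaxOn ⟨y, hy⟩ f.continuous.continuousOn
  obtain ⟨k, hk, w, hw, hkw⟩ := Set.mem_add.mp (h hz)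
  obtain ⟨k0, hk0, rfl⟩ := hw
  have e1 : f z = f k + t * f k0 := by
    rw [← hkw]; simp
  have e2 : f k < u := hf1 k hk
  have e3 : f k0 ≤ f z := hzmax hk0
  have e4 : f y ≤ f z := hzmax hy
  have e5 : f ((1 - t) • y) = (1 - t) * f y := by simp
  simp only at hf2
  rw [e5] at hf2
  nlinarith

/-- Hausdorff-near convex bodies are Banach-Mazur near. -/
theorem sandwich {K0 K1 : NonemptyCompacts Pl} (h0c : Convex ℝ (K0 : Set Pl))
    (h1c : Convex ℝ (K1 : Set Pl)) {ρ : ℝ} (hρ : 0 < ρ) (hball : ball (0 : Pl) ρ ⊆ K0)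
    {δ : ℝ} (hδ : 0 < δ) (hδρ : δ < ρ) (hd : dist K1 K0 < δ) :
    (1 - δ / ρ) • (K0 : Set Pl) ⊆ K1 ∧ (K1 : Set Pl) ⊆ (1 + δ / ρ) • (K0 : Set Pl) := by
  set t := δ / ρ with ht
  have ht0 : 0 < t := div_pos hδ hρ
  have ht1 : t < 1 := by rw [ht, div_lt_one hρ]; exact hδρ
  have hbt : ball (0 : Pl) δ ⊆ t • (K0 : Set Pl) := by
    intro x hx
    refine ⟨t⁻¹ • x, hball ?_, ?_⟩
    · rw [mem_ball_zero_iff] at hx ⊢
      rw [norm_smul, norm_inv, Real.norm_eq_abs, abs_of_pos ht0, ht]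
      rw [inv_div, div_mul_eq_mul_div, div_lt_iff₀ hδ]
      nlinarith [norm_nonneg x]
    · simp only
      rw [smul_smul, mul_inv_cancel₀ ht0.ne', one_smul]
  have hne : hausdorffEDist (K1 : Set Pl) (K0 : Set Pl) ≠ ⊤ :=
    hausdorffEDist_ne_top_of_nonempty_of_bounded K1.nonempty K0.nonempty
      K1.isCompact.isBounded K0.isCompact.isBounded
  have hd' : hausdorffDist (K1 : Set Pl) (K0 : Set Pl) < δ := by
    rw [← NonemptyCompacts.dist_eq]; exact hd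
  have hA : (K1 : Set Pl) ⊆ (K0 : Set Pl) + t • (K0 : Set Pl) := by
    intro x hx
    obtain ⟨y, hy, hxy⟩ := exists_dist_lt_of_hausdorffDist_lt hx hd' hne
    refine ⟨y, hy, x - y, hbt ?_, by simp⟩
    rw [mem_ball_zero_iff, ← dist_eq_norm]; exact hxy
  have hB : (K0 : Set Pl) ⊆ (K1 : Set Pl) + t • (K0 : Set Pl) := by
    intro x hx
    obtain ⟨y, hy, hxy⟩ := exists_dist_lt_of_hausdorffDist_lt' hx hd' hne
    refine ⟨y, hy, x - y, hbt ?_, by simp⟩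
    rw [mem_ball_zero_iff, ← dist_eq_norm, dist_comm]; exact hxy
  refine ⟨smul_subset_of_subset_add h1c K0.isCompact K1.isCompact ht0.le ht1 hB, ?_⟩
  rw [h0c.add_smul zero_le_one ht0.le, one_smul]
  exact hA

/-- a neighbourhood with one threshold, all affine images included -/
theorem exists_nhds_threshold (K0 : NonemptyCompacts Pl) (h0c : Convex ℝ (K0 : Set Pl))
    {ρ : ℝ} (hρ : 0 < ρ) (hball : ball (0 : Pl) ρ ⊆ K0) (hT : Threshold (K0 : Set Pl)) :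
    ∃ δ > (0 : ℝ), ∃ N : ℕ, ∀ K1 : NonemptyCompacts Pl, dist K1 K0 < δ →
      Convex ℝ (K1 : Set Pl) → ∀ K : Set Pl, Convex ℝ K → IsCompact K →
      ∀ (A : Pl ≃L[ℝ] Pl) (v : Pl), (fun x => A x + v) '' K = K1 → HexBound K N := by
  obtain ⟨ε, hε, N, hN⟩ := hT
  set t : ℝ := min (1 / 2) (ε / 8) with ht
  have ht0 : 0 < t := lt_min (by norm_num) (by positivity)
  have ht1 : t ≤ 1 / 2 := min_le_left _ _
  have ht2 : t ≤ ε / 8 := min_le_right _ _
  refine ⟨t * ρ, by positivity, N, ?_⟩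
  intro K1 hd h1c K hK hKc A v hA
  have hδρ : t * ρ < ρ := by nlinarith
  obtain ⟨s1, s2⟩ := sandwich h0c h1c hρ hball (by positivity) hδρ hd
  have htρ : t * ρ / ρ = t := by field_simp
  rw [htρ] at s1 s2
  have h1t : 0 < 1 - t := by linarith
  refine hN K hK hKc ⟨?_, ?_⟩
  · exact A.trans (ContinuousLinearEquiv.smulLeft (Units.mk0 ((1 - t)⁻¹) (inv_ne_zero h1t.ne')))
  · refine ⟨(1 - t)⁻¹ • v, ?_⟩
    have himg : (fun x => (A.trans (ContinuousLinearEquiv.smulLeft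
        (Units.mk0 ((1 - t)⁻¹) (inv_ne_zero h1t.ne')))) x + (1 - t)⁻¹ • v) '' K
        = (1 - t)⁻¹ • (K1 : Set Pl) := by
      rw [← hA, ← Set.image_smul, Set.image_image]
      refine Set.image_congr fun x _ => ?_
      simp [smul_add]
    rw [himg]
    constructor
    · intro x hx
      refine ⟨(1 - t) • x, s1 ⟨x, hx, rfl⟩, ?_⟩
      simp only
      rw [smul_smul, inv_mul_cancel₀ h1t.ne', one_smul]
    · rintro _ ⟨y, hy, rfl⟩
      obtain ⟨z, hz, rfl⟩ := s2 hy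
      simp only
      rw [smul_smul]
      -- (1 - t)⁻¹ (1 + t) ≤ 1 + ε
      have hr : (1 - t)⁻¹ * (1 + t) ≤ 1 + ε := by
        rw [inv_mul_le_iff₀ h1t]
        nlinarith
      have hr0 : 0 ≤ (1 - t)⁻¹ * (1 + t) := by positivity
      have h00 : (0 : Pl) ∈ (K0 : Set Pl) := hball (mem_ball_self hρ)
      refine ⟨((1 - t)⁻¹ * (1 + t) / (1 + ε)) • z, ?_, ?_⟩
      · refine h0c.smul_mem_of_zero_mem h00 hz ⟨by positivity, ?_⟩
        rw [div_le_one (by positivity)]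
        exact hr
      · simp only
        rw [smul_smul, mul_div_cancel₀ _ (by positivity)]

/-- COMPACT FAMILIES. -/
theorem exists_family_threshold (𝒞 : Set (NonemptyCompacts Pl)) (hC : IsCompact 𝒞)
    (hg : ∀ K0 ∈ 𝒞, Convex ℝ (K0 : Set Pl) ∧ (∃ ρ > (0 : ℝ), ball (0 : Pl) ρ ⊆ K0) ∧
      Threshold (K0 : Set Pl)) :
    ∃ N : ℕ, ∃ U : Set (NonemptyCompacts Pl), IsOpen U ∧ 𝒞 ⊆ U ∧ ∀ K1 ∈ U,
      Convex ℝ (K1 : Set Pl) → ∀ K : Set Pl, Convex ℝ K → IsCompact K →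
      ∀ (A : Pl ≃L[ℝ] Pl) (v : Pl), (fun x => A x + v) '' K = K1 → HexBound K N := by
  have h1 : ∀ K0 : NonemptyCompacts Pl, K0 ∈ 𝒞 → ∃ δ > (0 : ℝ), ∃ N : ℕ,
      ∀ K1 : NonemptyCompacts Pl, dist K1 K0 < δ →
      Convex ℝ (K1 : Set Pl) → ∀ K : Set Pl, Convex ℝ K → IsCompact K →
      ∀ (A : Pl ≃L[ℝ] Pl) (v : Pl), (fun x => A x + v) '' K = K1 → HexBound K N := by
    intro K0 hK0
    obtain ⟨hc, ⟨ρ, hρ, hb⟩, hT⟩ := hg K0 hK0
    exact exists_nhds_threshold K0 hc hρ hb hT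
  choose! δ hδ N hN using h1
  obtain ⟨s, hs, hcov⟩ := hC.elim_nhds_subcover (fun K0 => ball K0 (δ K0))
    (fun K0 hK0 => ball_mem_nhds K0 (hδ K0 hK0))
  refine ⟨s.sup N, ⋃ K0 ∈ s, ball K0 (δ K0), isOpen_biUnion fun _ _ => isOpen_ball, hcov, ?_⟩
  intro K1 hK1 h1c K hK hKc A v hA
  simp only [mem_iUnion, exists_prop] at hK1
  obtain ⟨K0, hK0s, hK1⟩ := hK1
  exact (hN K0 (hs K0 hK0s) K1 (mem_ball.mp hK1) h1c K hK hKc A v hA).mono
    (Finset.le_sup hK0s)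

end C2305b
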