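import Pool.Agent.W_c2305b_h89.Generic
import Pool.Agent.W_c2305b_h73.Stmt

/-! MP_c2305b_co: uniform threshold away from the exceptional set, stability. -/

open Set MeasureTheory TopologicalSpace Metric
open scoped Pointwise

namespace C2305b

/-- A centrally symmetric convex domain (any centre). -/
def SymDomain (K : Set Pl) : Prop := ConvexDomain K ∧ ∃ z : Pl, ∀ x ∈ K, (2 : ℝ) • z - x ∈ K

/-- Some invertible affine map takes `K` to a set between `E` and `(1 + ε) E`. -/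
def Close (ε : ℝ) (E K : Set Pl) : Prop :=
  ∃ (A : Pl ≃L[ℝ] Pl) (v : Pl), E ⊆ (fun x => A x + v) '' K ∧
    (fun x => A x + v) '' K ⊆ (1 + ε) • E

/-- the image of a compact set as a nonempty compact -/
def nc (K : Set Pl) (hK : IsCompact K) (hne : K.Nonempty) : NonemptyCompacts Pl := ⟨⟨K, hK⟩, hne⟩

theorem exists_cr_pos {K : Set Pl} (hint : (interior K).Nonempty) (hK : Convex ℝ K)
    (hsym : ∀ v ∈ K, -v ∈ K) : ∃ x ∈ K, ∃ y ∈ K, 0 < Rig.cr x y := by
  obtain ⟨x, hx⟩ := hint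
  obtain ⟨ρ, hρ, hball⟩ := Metric.isOpen_iff.mp isOpen_interior x hx
  have hb : ∀ v : Pl, ‖v‖ < ρ → x + v ∈ K := fun v hv =>
    interior_subset (hball (by rw [mem_ball, dist_eq_norm, add_sub_cancel_left]; exact hv))
  have hx' : x ∈ K := interior_subset hx
  have hmid : ∀ v : Pl, ‖v‖ < ρ → (1 / 2 : ℝ) • v ∈ K := by
    intro v hv
    have h1 := hK (hb v hv) (hsym x hx') (by norm_num : (0:ℝ) ≤ 1/2)
      (by norm_num : (0:ℝ) ≤ 1/2) (by norm_num)
    have h2 : (1 / 2 : ℝ) • (x + v) + (1 / 2 : ℝ) • (-x) = (1 / 2 : ℝ) • v := by module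
    rwa [h2] at h1
  have e1 : ‖(!₂[ρ / 2, 0] : Pl)‖ < ρ := by
    rw [EuclideanSpace.norm_eq]
    simp only [Fin.sum_univ_two, Matrix.cons_val_zero, Matrix.cons_val_one]
    simp only [norm_zero, Real.norm_eq_abs, sq_abs, ne_eq, OfNat.ofNat_ne_zero,
      not_false_eq_true, zero_pow, add_zero]
    rw [Real.sqrt_sq (by positivity)]
    linarith
  have e2 : ‖(!₂[0, ρ / 2] : Pl)‖ < ρ := by
    rw [EuclideanSpace.norm_eq]
    simp only [Fin.sum_univ_two, Matrix.cons_val_zero, Matrix.cons_val_one]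
    simp only [norm_zero, Real.norm_eq_abs, sq_abs, ne_eq, OfNat.ofNat_ne_zero,
      not_false_eq_true, zero_pow, zero_add]
    rw [Real.sqrt_sq (by positivity)]
    linarith
  refine ⟨_, hmid _ e1, _, hmid _ e2, ?_⟩
  rw [Rig.cr_smul_left, Rig.cr_smul_right]
  have e3 : Rig.cr (!₂[ρ / 2, 0] : Pl) (!₂[0, ρ / 2] : Pl) = ρ / 2 * (ρ / 2) := by
    simp [Rig.cr]
  rw [e3]; positivity

/-- UNIFORM THRESHOLD away from the exceptional set. -/
theorem uniform {ε : ℝ} (hε : 0 < ε) :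
    ∃ N : ℕ, ∀ K : Set Pl, SymDomain K → (∃ E ∈ EE, Close ε (E : Set Pl) K) ∨ HexBound K N := by
  set δ : ℝ := min (1 / 2) (ε / 8) with hδ
  have hδ0 : 0 < δ := lt_min (by norm_num) (by positivity)
  set CC : Set (NonemptyCompacts Pl) := Nrm ∩ {K1 | ∀ E ∈ EE, δ ≤ dist K1 E} with hCC
  have hclosed : IsClosed {K1 : NonemptyCompacts Pl | ∀ E ∈ EE, δ ≤ dist K1 E} := by
    have : {K1 : NonemptyCompacts Pl | ∀ E ∈ EE, δ ≤ dist K1 E} =
        ⋂ E ∈ EE, {K1 : NonemptyCompacts Pl | δ ≤ dist K1 E} := by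
      ext K1; simp
    rw [this]
    exact isClosed_biInter fun E _ => isClosed_le continuous_const (continuous_id.dist continuous_const)
  have hCCc : IsCompact CC := isCompact_nrm.inter_right hclosed
  have hgood : ∀ K1 ∈ CC, Good K1 := by
    intro K1 hK1
    by_contra hno
    have h1 : K1 ∈ EE := ⟨hK1.1, hno⟩
    have h2 := hK1.2 K1 h1
    rw [dist_self] at h2
    linarith
  have h1 : ∀ K0 : NonemptyCompacts Pl, K0 ∈ CC → ∃ δ > (0 : ℝ), ∃ N : ℕ,
      ∀ K1 : NonemptyCompacts Pl, dist K1 K0 < δ →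
      Convex ℝ (K1 : Set Pl) → ∀ K : Set Pl, Convex ℝ K → IsCompact K →
      ∀ (A : Pl ≃L[ℝ] Pl) (v : Pl), (fun x => A x + v) '' K = K1 → HexBound K N := hgood
  choose! δ' hδ' N hN using h1
  obtain ⟨s, hs, hcov⟩ := hCCc.elim_nhds_subcover (fun K0 => ball K0 (δ' K0))
    (fun K0 hK0 => ball_mem_nhds K0 (hδ' K0 hK0))
  refine ⟨s.sup N, ?_⟩
  rintro K ⟨⟨hKc, hKcomp, hKint⟩, z, hz⟩
  -- translate the centre to 0
  set K0 : Set Pl := (fun x => x - z) '' K with hK0
  have hK0c : Convex ℝ K0 := by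
    have : K0 = (fun x => x + (-z)) '' K := by
      rw [hK0]; exact Set.image_congr fun x _ => sub_eq_add_neg x z
    rw [this]
    have h2 := hKc.translate (-z)
    rwa [show (fun x => -z + x) '' K = (fun x => x + -z) '' K from
      Set.image_congr fun x _ => add_comm _ _] at h2
  have hK0comp : IsCompact K0 := hKcomp.image (by fun_prop)
  have hK0sym : ∀ v ∈ K0, -v ∈ K0 := by
    rintro _ ⟨x, hx, rfl⟩
    refine ⟨(2 : ℝ) • z - x, hz x hx, ?_⟩
    simp only
    module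
  have hK0int : (interior K0).Nonempty := by
    obtain ⟨x, hx⟩ := hKint
    refine ⟨x - z, ?_⟩
    have hhom : K0 = (Homeomorph.subRight z) '' K := rfl
    rw [hhom, ← Homeomorph.image_interior]
    exact ⟨x, hx, rfl⟩
  obtain ⟨A, hA1, hA2⟩ := normalize hK0c hK0comp hK0sym (exists_cr_pos hK0int hK0c hK0sym)
  have hcomp1 : IsCompact (A '' K0) := hK0comp.image A.continuous
  have hne1 : (A '' K0).Nonempty := ⟨0, hA1 (by simp)⟩
  set K1 : NonemptyCompacts Pl := ⟨⟨A '' K0, hcomp1⟩, hne1⟩ with hK1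
  have hK1s : (K1 : Set Pl) = A '' K0 := rfl
  have hK1c : Convex ℝ (K1 : Set Pl) := by
    rw [hK1s]
    exact hK0c.is_linear_image (IsLinearMap.mk (fun x y => map_add A x y) (fun c x => map_smul A c x))
  have hK1n : K1 ∈ Nrm := by
    refine ⟨hK1c, ?_, hA1, hA2⟩
    rintro _ ⟨x, hx, rfl⟩
    exact ⟨-x, hK0sym x hx, by simp⟩
  have himg : (fun x => A x + (- A z)) '' K = K1 := by
    rw [hK1s, hK0, Set.image_image]
    refine Set.image_congr fun x _ => ?_
    rw [map_sub, sub_eq_add_neg]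
  by_cases hc : K1 ∈ CC
  · right
    have h2 := hcov hc
    simp only [mem_iUnion, exists_prop] at h2
    obtain ⟨L, hLs, hL⟩ := h2
    exact (hN L (hs L hLs) K1 (mem_ball.mp hL) hK1c K hKc hKcomp A (-A z) himg).mono
      (Finset.le_sup hLs)
  · left
    have h2 : ∃ E ∈ EE, dist K1 E < δ := by
      by_contra hno
      push Not at hno
      exact hc ⟨hK1n, hno⟩
    obtain ⟨E, hE, hd⟩ := h2
    refine ⟨E, hE, ?_⟩
    obtain ⟨B, w, hB1, hB2⟩ := near_sandwich hE.1 hK1c hε hd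
    have himg2 : (fun x => (A.trans B) x + (B (-A z) + w)) '' K = (fun x => B x + w) '' K1 := by
      rw [← himg, Set.image_image]
      refine Set.image_congr fun x _ => ?_
      simp only [ContinuousLinearEquiv.trans_apply, map_add]
      abel
    refine ⟨A.trans B, B (-A z) + w, ?_, ?_⟩
    · rw [himg2]; exact hB1
    · rw [himg2]; exact hB2

/-- Thresholds are inherited by close bodies. -/
theorem threshold_stable {K' : Set Pl} (hc : Convex ℝ K') (hsym : ∀ v ∈ K', -v ∈ K')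
    (hT : Threshold K') :
    ∃ ε' > (0 : ℝ), ∀ E : Set Pl, (0 : Pl) ∈ E → Close ε' E K' → Threshold E := by
  obtain ⟨ε0, hε0, N, hN⟩ := hT
  set ε' : ℝ := min 1 (ε0 / 6) with hε'
  have h0 : 0 < ε' := lt_min one_pos (by positivity)
  have h1 : ε' ≤ 1 := min_le_left _ _
  have h6 : ε' ≤ ε0 / 6 := min_le_right _ _
  refine ⟨ε', h0, ?_⟩
  rintro E hE0 ⟨A, v, hA1, hA2⟩
  refine ⟨ε', h0, N, ?_⟩
  rintro K hK hKc ⟨C, w, hC1, hC2⟩
  have h1e : (0 : ℝ) < 1 + ε' := by linarith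
  refine hN K hK hKc ⟨(C.trans (ContinuousLinearEquiv.smulLeft
    (Units.mk0 (1 + ε') h1e.ne'))).trans A.symm, A.symm ((1 + ε') • w - v), ?_, ?_⟩
  · intro y hy
    obtain ⟨e, he, hey⟩ := hA2 ⟨y, hy, rfl⟩
    obtain ⟨x, hx, hxe⟩ := hC1 he
    refine ⟨x, hx, ?_⟩
    simp only at hey hxe
    simp only [ContinuousLinearEquiv.trans_apply, ContinuousLinearEquiv.smulLeft_apply_apply]
    rw [← map_add, ContinuousLinearEquiv.symm_apply_eq, Units.smul_def, Units.val_mk0]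
    calc (1 + ε') • C x + ((1 + ε') • w - v) = (1 + ε') • (C x + w) - v := by module
      _ = (1 + ε') • e - v := by rw [hxe]
      _ = A y + v - v := by rw [hey]
      _ = A y := by abel
  · rintro _ ⟨x, hx, rfl⟩
    obtain ⟨e, he, hex⟩ := hC2 ⟨x, hx, rfl⟩
    obtain ⟨k, hk, hke⟩ := hA1 he
    obtain ⟨k0, hk0, hk00⟩ := hA1 hE0
    simp only at hex hke hk00
    set q : ℝ := (1 + ε') ^ 2 with hq
    have hq1 : 1 ≤ q := by rw [hq]; nlinarith
    have hq2 : 2 * q - 1 ≤ 1 + ε0 := by rw [hq]; nlinarith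
    have hq3 : (0 : ℝ) < 2 * q - 1 := by linarith
    have h00 : (0 : Pl) ∈ K' := by
      have := hc hk0 (hsym k0 hk0) (by norm_num : (0:ℝ) ≤ 1/2) (by norm_num : (0:ℝ) ≤ 1/2)
        (by norm_num)
      rwa [smul_neg, add_neg_cancel] at this
    have hval : ((C.trans (ContinuousLinearEquiv.smulLeft
        (Units.mk0 (1 + ε') h1e.ne'))).trans A.symm) x + A.symm ((1 + ε') • w - v)
        = q • k + (q - 1) • (-k0) := by
      simp only [ContinuousLinearEquiv.trans_apply, ContinuousLinearEquiv.smulLeft_apply_apply]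
      rw [← map_add, ContinuousLinearEquiv.symm_apply_eq, Units.smul_def, Units.val_mk0]
      have e1 : v = - A k0 := by
        rw [eq_neg_iff_add_eq_zero, add_comm]; exact hk00
      calc (1 + ε') • C x + ((1 + ε') • w - v) = (1 + ε') • (C x + w) - v := by module
        _ = (1 + ε') • ((1 + ε') • e) - v := by rw [hex]
        _ = (1 + ε') • ((1 + ε') • (A k + v)) - v := by rw [hke]
        _ = A (q • k + (q - 1) • (-k0)) := by
            rw [map_add, map_smul, map_smul, map_neg, e1, hq]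
            module
    show ((C.trans (ContinuousLinearEquiv.smulLeft
        (Units.mk0 (1 + ε') h1e.ne'))).trans A.symm) x + A.symm ((1 + ε') • w - v) ∈
        (1 + ε0) • K'
    rw [hval]
    have hmem : (q / (2 * q - 1)) • k + ((q - 1) / (2 * q - 1)) • (-k0) ∈ K' := by
      refine hc hk (hsym k0 hk0) (by positivity) (div_nonneg (by linarith) hq3.le) ?_
      rw [← add_div, show q + (q - 1) = 2 * q - 1 by ring, div_self hq3.ne']
    have hmem2 := hc.smul_mem_of_zero_mem h00 hmem (t := (2 * q - 1) / (1 + ε0))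
      ⟨by positivity, by rw [div_le_one (by positivity)]; exact hq2⟩
    refine ⟨_, hmem2, ?_⟩
    simp only
    rw [smul_smul, mul_div_cancel₀ _ (by positivity : (1 + ε0 : ℝ) ≠ 0), smul_add, smul_smul,
      smul_smul, mul_div_cancel₀ _ hq3.ne', mul_div_cancel₀ _ hq3.ne']

/-- Thresholds are invariant under linear maps. -/
theorem threshold_linear {K0 : Set Pl} (hT : Threshold K0) (A : Pl ≃L[ℝ] Pl) :
    Threshold (A '' K0) := by
  obtain ⟨ε, hε, N, hN⟩ := hT
  refine ⟨ε, hε, N, ?_⟩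
  rintro K hK hKc ⟨C, w, h1, h2⟩
  refine hN K hK hKc ⟨C.trans A.symm, A.symm w, ?_, ?_⟩
  · intro x hx
    obtain ⟨y, hy, hyx⟩ := h1 ⟨x, hx, rfl⟩
    refine ⟨y, hy, ?_⟩
    simp only at hyx
    simp only [ContinuousLinearEquiv.trans_apply]
    rw [← map_add, hyx, ContinuousLinearEquiv.symm_apply_apply]
  · rintro _ ⟨y, hy, rfl⟩
    obtain ⟨u, ⟨x, hx, rfl⟩, hxy⟩ := h2 ⟨y, hy, rfl⟩
    refine ⟨x, hx, ?_⟩
    simp only at hxy
    simp only [ContinuousLinearEquiv.trans_apply]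
    rw [← map_add, ← hxy, map_smul, ContinuousLinearEquiv.symm_apply_apply]

/-- members of `EE` have no threshold -/
theorem not_threshold {E : NonemptyCompacts Pl} (hE : E ∈ EE) : ¬ Threshold (E : Set Pl) := by
  intro hT
  exact hE.2 (good_of_threshold hE.1.1 one_pos (nrm_ball hE.1) hT)

/-- `EE` is nowhere dense, as soon as a dense class has thresholds. -/
theorem nowhere_dense {K : Set Pl}
    (hdense : ∀ ε : ℝ, 0 < ε → ∃ K1 : Set Pl, K ⊆ K1 ∧ K1 ⊆ (1 + ε) • K ∧ Convex ℝ K1 ∧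
      IsCompact K1 ∧ (∀ v ∈ K1, -v ∈ K1) ∧ Threshold K1) (hint : (interior K).Nonempty)
    {ε : ℝ} (hε : 0 < ε) :
    ∃ K1 : Set Pl, ConvexDomain K1 ∧ (∀ v ∈ K1, -v ∈ K1) ∧ K ⊆ K1 ∧ K1 ⊆ (1 + ε) • K ∧
      ∃ ε' > (0 : ℝ), ∀ E ∈ EE, ¬ Close ε' (E : Set Pl) K1 := by
  obtain ⟨K1, h1, h2, h3, h4, h5, h6⟩ := hdense ε hε
  obtain ⟨ε', hε', hst⟩ := threshold_stable h3 h5 h6
  refine ⟨K1, ⟨h3, h4, hint.mono (interior_mono h1)⟩, h5, h1, h2, ε', hε', ?_⟩
  intro E hE hcl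
  exact not_threshold hE (hst _ (nrm_ball hE.1 (mem_ball_self one_pos)) hcl)

end C2305b
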