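import Mathlib

/-! MP_c2305b_co: interface between rigidity (part A) and windows (part B).
Plane `EuclideanSpace R (Fin 2)`; frames `Am ν c s = [[c, -ν s],[s, c]]`, `c^2 + ν s^2 = 1`. -/

namespace C2305b.Rig

noncomputable section

abbrev Pl := EuclideanSpace ℝ (Fin 2)

/-- cross product -/
def cr (u v : Pl) : ℝ := u 0 * v 1 - u 1 * v 0

/-- frame map with parameter `ν = 1/L^2` -/
def Am (ν c s : ℝ) (v : Pl) : Pl := !₂[c * v 0 - ν * s * v 1, s * v 0 + c * v 1]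

/-- vertical shear -/
def Sh (e : ℝ) (v : Pl) : Pl := !₂[v 0, e * v 0 + v 1]

/-- reflection `y -> -y` if `t` -/
def Jt (t : Bool) (v : Pl) : Pl := if t then !₂[v 0, - v 1] else v

/-- cyclic convex position, counterclockwise (weak) -/
def Conv6 (p : Fin 6 → Pl) : Prop :=
  ∀ i j k : Fin 6, i < j → j < k → 0 ≤ cr (p j - p i) (p k - p i)

/-- shoelace area -/
def ar6 (p : Fin 6 → Pl) : ℝ := (∑ k, cr (p k) (p (k + 1))) / 2

/-- `q` lies in the local body: `V K0` (`t = false`) or `J V K0` (`t = true`),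
`V` the rotation with cosine `a`, sine `b`. -/
def InBody (K0 : Set Pl) (a b : ℝ) (t : Bool) (q : Pl) : Prop := Am 1 a (-b) (Jt t q) ∈ K0

/-- offset frame of the reflected cells -/
def Off (ν co so : ℝ) (t : Bool) (v : Pl) : Pl := if t then Am ν co so v else v

/-- position of the local point `v` of a cell with centre `o`, frame `(c,s)`, type `t` -/
def Pos (ν co so : ℝ) (t : Bool) (c s : ℝ) (o v : Pl) : Pl := o + Am ν c s (Off ν co so t v)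

/-- RIGIDITY AT A 3-VALENT VERTEX (soft form), the interface for part B.
Three near-maximal convex sextuples around a point, edge to edge, have nearly equal frames.
`ε` : Banach-Mazur neighbourhood (the local points lie in `(1+ε) K0`). -/
def Rigid3 (K0 : Set Pl) (t6 : ℝ) : Prop :=
  ∃ R : ℝ, 0 ≤ R ∧ ∀ κ : ℝ, 0 < κ → ∃ η : ℝ, 0 < η ∧ ∃ ν0 : ℝ, 0 < ν0 ∧ ∃ ε0 : ℝ, 0 < ε0 ∧
   ∀ ν : ℝ, 0 < ν → ν ≤ ν0 → ∀ ε : ℝ, 0 ≤ ε → ε ≤ ε0 → ∀ a b : ℝ, a ^ 2 + b ^ 2 = 1 →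
   ∃ co so : ℝ, co ^ 2 + ν * so ^ 2 = 1 ∧ 0 < co ∧ |so| ≤ R ∧
    ∀ (t : Fin 3 → Bool) (c s : Fin 3 → ℝ) (o : Fin 3 → Pl) (q : Fin 3 → Fin 6 → Pl),
      (∀ i, c i ^ 2 + ν * s i ^ 2 = 1) → (∀ i, Conv6 (q i)) →
      (∀ i k, InBody K0 a b (t i) ((1 + ε)⁻¹ • q i k)) →
      (∀ i, t6 - η ≤ ar6 (q i)) →
      (∀ i, Pos ν co so (t i) (c i) (s i) (o i) (q i 0) =
        Pos ν co so (t (i+1)) (c (i+1)) (s (i+1)) (o (i+1)) (q (i+1) 0)) →
      (∀ i, Pos ν co so (t i) (c i) (s i) (o i) (q i 5) =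
        Pos ν co so (t (i+1)) (c (i+1)) (s (i+1)) (o (i+1)) (q (i+1) 1)) →
      ∀ i j, |c i * s j - s i * c j| ≤ κ

/-- EXACT LIMIT STATEMENT: `ν = 0`, maximal sextuples, pure shears. -/
def RigidLim (K0 : Set Pl) (t6 : ℝ) : Prop :=
  ∃ R : ℝ, 0 ≤ R ∧ ∀ a b : ℝ, a ^ 2 + b ^ 2 = 1 → ∃ σ : ℝ, |σ| ≤ R ∧
    ∀ (t : Fin 3 → Bool) (e : Fin 3 → ℝ) (q : Fin 3 → Fin 6 → Pl),
      (∀ i, Conv6 (q i)) → (∀ i k, InBody K0 a b (t i) (q i k)) → (∀ i, ar6 (q i) = t6) →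
      (∀ i, Sh (e i) (q i 5 - q i 0) = Sh (e (i+1)) (q (i+1) 1 - q (i+1) 0)) →
      ∀ i j, e i - (if t i then σ else 0) = e j - (if t j then σ else 0)

/-- maximal sextuples have a strictly convex corner at the point 0
(follows from `t5 < t6`, for both types of bodies) -/
def StrictMax (K0 : Set Pl) (t6 : ℝ) : Prop :=
  ∀ (a b : ℝ) (t : Bool) (q : Fin 6 → Pl), a ^ 2 + b ^ 2 = 1 → Conv6 q →
    (∀ k, InBody K0 a b t (q k)) → ar6 q = t6 → 0 < cr (q 1 - q 0) (q 5 - q 0)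

/-- `t6` bounds the area of convex sextuples in `K0` -/
def LeMax (K0 : Set Pl) (t6 : ℝ) : Prop :=
  ∀ q : Fin 6 → Pl, Conv6 q → (∀ k, q k ∈ K0) → ar6 q ≤ t6

/-- edges of a sextuple -/
def edge (H : Fin 6 → Pl) (k : Fin 6) : Pl := H (k + 1) - H k

/-- the generic class: unique maximal sextuple, not collinear-ended -/
structure UniqHex (K0 : Set Pl) (H : Fin 6 → Pl) (t6 : ℝ) : Prop where
  sym : ∀ v ∈ K0, -v ∈ K0
  conv : Conv6 H
  mem : ∀ k, H k ∈ K0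
  area : ar6 H = t6
  le : LeMax K0 t6
  uniq : ∀ p : Fin 6 → Pl, Conv6 p → (∀ k, p k ∈ K0) → ar6 p = t6 → ∃ j, ∀ k, p k = H (k + j)
  strict : ∀ k, 0 < cr (edge H k) (edge H (k + 1))
  nce : ∀ k, cr (edge H (k + 1) - edge H k) (edge H (k + 2) - edge H (k + 1)) ≠ 0

end

end C2305b.Rig
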