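import Pool.Agent.W_c2305b_h89.Defs

/-! MP_c2305b_co: density of the bodies with a unique maximal symmetric hexagon. -/

open Set
open scoped Pointwise

namespace C2305b.Rig

noncomputable section

/-- half of the shoelace sum of the symmetric sextuple `x, y, z, -x, -y, -z` -/
def S3 (x y z : Pl) : ℝ := cr x y + cr y z + cr x z

/-- the symmetric sextuple -/
def Hx (h : Fin 3 → Pl) : Fin 6 → Pl := ![h 0, h 1, h 2, - h 0, - h 1, - h 2]

/-- `(x, y, z)` are three consecutive points of `Hx h` -/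
def IsRot (h : Fin 3 → Pl) (x y z : Pl) : Prop :=
  ∃ j : Fin 6, x = Hx h j ∧ y = Hx h (j + 1) ∧ z = Hx h (j + 2)

/-- strict triangle inequalities: the symmetric hexagon is strictly convex -/
structure StrictTri (h : Fin 3 → Pl) : Prop where
  t1 : cr (h 0) (h 2) < cr (h 0) (h 1) + cr (h 1) (h 2)
  t2 : cr (h 0) (h 1) < cr (h 1) (h 2) + cr (h 0) (h 2)
  t3 : cr (h 1) (h 2) < cr (h 0) (h 2) + cr (h 0) (h 1)

/-- a unique maximal symmetric hexagon -/
structure SymUniq (K : Set Pl) (h : Fin 3 → Pl) : Prop where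
  mem : ∀ i, h i ∈ K
  tri : StrictTri h
  max : ∀ x ∈ K, ∀ y ∈ K, ∀ z ∈ K, S3 x y z ≤ S3 (h 0) (h 1) (h 2)
  uniq : ∀ x ∈ K, ∀ y ∈ K, ∀ z ∈ K, S3 x y z = S3 (h 0) (h 1) (h 2) → IsRot h x y z

theorem cr_add_left (u v w : Pl) : cr (u + v) w = cr u w + cr v w := by simp [cr]; ring
theorem cr_add_right (u v w : Pl) : cr w (u + v) = cr w u + cr w v := by simp [cr]; ring
theorem cr_smul_left (t : ℝ) (u w : Pl) : cr (t • u) w = t * cr u w := by simp [cr]; ring
theorem cr_smul_right (t : ℝ) (u w : Pl) : cr w (t • u) = t * cr w u := by simp [cr]; ring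
theorem cr_neg_left (u w : Pl) : cr (-u) w = - cr u w := by simp [cr]; ring
theorem cr_neg_right (u w : Pl) : cr w (-u) = - cr w u := by simp [cr]; ring
theorem cr_self (u : Pl) : cr u u = 0 := by simp [cr]; ring
theorem cr_swap (u v : Pl) : cr u v = - cr v u := by simp [cr]; ring

theorem S3_rot (x y z : Pl) : S3 y z (-x) = S3 x y z := by
  simp [S3, cr]; ring

theorem S3_x (x y z : Pl) : S3 x y z = cr x (y + z) + cr y z := by
  simp [S3, cr]; ring

theorem S3_y (x y z : Pl) : S3 x y z = cr y (z - x) + cr x z := by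
  simp [S3, cr]; ring

theorem S3_z (x y z : Pl) : S3 x y z = cr z (- x - y) + cr x y := by
  simp [S3, cr]; ring

theorem continuous_cr : Continuous (fun p : Pl × Pl => cr p.1 p.2) := by
  unfold cr; fun_prop

theorem continuous_S3 : Continuous (fun p : Pl × Pl × Pl => S3 p.1 p.2.1 p.2.2) := by
  unfold S3 cr; fun_prop

/-! ### affine functions on convex hulls -/

theorem hull_le {A : Set Pl} {u : Pl} {c M : ℝ} (h : ∀ x ∈ A, cr x u + c ≤ M) :
    ∀ x ∈ convexHull ℝ A, cr x u + c ≤ M := by
  intro x hx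
  have hconv : Convex ℝ {x : Pl | cr x u + c ≤ M} := by
    intro x hx y hy a b ha hb hab
    simp only [mem_ofPred_eq] at hx hy ⊢
    rw [cr_add_left, cr_smul_left, cr_smul_left]
    have : a * c + b * c = c := by rw [← add_mul, hab, one_mul]
    have : a * M + b * M = M := by rw [← add_mul, hab, one_mul]
    nlinarith
  exact convexHull_min (fun x hx => h x hx) hconv hx

theorem hull_face {A : Set Pl} {u : Pl} {c M : ℝ} (h : ∀ x ∈ A, cr x u + c ≤ M) {x : Pl}
    (hx : x ∈ convexHull ℝ A) (hxM : cr x u + c = M) :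
    x ∈ convexHull ℝ (A ∩ {y | cr y u + c = M}) := by
  have hface : ∀ y ∈ convexHull ℝ (A ∩ {y | cr y u + c = M}), cr y u + c = M := by
    intro y hy
    have hconv : Convex ℝ {y : Pl | cr y u + c = M} := by
      intro x hx y hy a b ha hb hab
      simp only [mem_ofPred_eq] at hx hy ⊢
      rw [cr_add_left, cr_smul_left, cr_smul_left]
      have h1 : a * c + b * c = c := by rw [← add_mul, hab, one_mul]
      have h2 : a * M + b * M = M := by rw [← add_mul, hab, one_mul]
      calc a * cr x u + b * cr y u + c = a * (cr x u + c) + b * (cr y u + c) := by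
            linear_combination (-1) * h1
        _ = M := by rw [hx, hy, h2]
    exact convexHull_min (fun y hy => hy.2) hconv hy
  have hconv : Convex ℝ ({y : Pl | cr y u + c < M} ∪
      convexHull ℝ (A ∩ {y | cr y u + c = M})) := by
    intro p hp q hq a b ha hb hab
    have hle : ∀ y ∈ {y : Pl | cr y u + c < M} ∪
        convexHull ℝ (A ∩ {y | cr y u + c = M}), cr y u + c ≤ M := by
      rintro y (hy | hy)
      · exact le_of_lt hy
      · exact (hface y hy).le
    rcases hp with hp | hp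
    · rcases eq_or_lt_of_le ha with ha0 | ha0
      · have hb1 : b = 1 := by linarith
        rw [← ha0, hb1, zero_smul, one_smul, zero_add]; exact hq
      · left
        have h1 := hle q hq
        simp only [mem_ofPred_eq] at hp ⊢
        rw [cr_add_left, cr_smul_left, cr_smul_left]
        have h2 : a * c + b * c = c := by rw [← add_mul, hab, one_mul]
        have h3 : a * M + b * M = M := by rw [← add_mul, hab, one_mul]
        nlinarith
    · rcases hq with hq | hq
      · rcases eq_or_lt_of_le hb with hb0 | hb0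
        · have ha1 : a = 1 := by linarith
          rw [← hb0, ha1, zero_smul, one_smul, add_zero]; exact Or.inr hp
        · left
          have h1 := hface p hp
          simp only [mem_ofPred_eq] at hq ⊢
          rw [cr_add_left, cr_smul_left, cr_smul_left]
          have h2 : a * c + b * c = c := by rw [← add_mul, hab, one_mul]
          have h3 : a * M + b * M = M := by rw [← add_mul, hab, one_mul]
          nlinarith
      · right
        exact (convex_convexHull ℝ _) hp hq ha hb hab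
  have hsub : A ⊆ {y : Pl | cr y u + c < M} ∪ convexHull ℝ (A ∩ {y | cr y u + c = M}) := by
    intro y hy
    rcases lt_or_eq_of_le (h y hy) with h1 | h1
    · exact Or.inl h1
    · exact Or.inr (subset_convexHull ℝ _ ⟨hy, h1⟩)
  rcases convexHull_min hsub hconv hx with h1 | h1
  · exact absurd hxM (ne_of_lt h1)
  · exact h1

/-- TRANSFER: uniqueness on a generating set gives uniqueness on the convex hull. -/
theorem symUniq_hull {A : Set Pl} {h : Fin 3 → Pl} (hmem : ∀ i, h i ∈ A) (htri : StrictTri h)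
    (hinj : Function.Injective (Hx h))
    (hmax : ∀ x ∈ A, ∀ y ∈ A, ∀ z ∈ A, S3 x y z ≤ S3 (h 0) (h 1) (h 2))
    (huniq : ∀ x ∈ A, ∀ y ∈ A, ∀ z ∈ A, S3 x y z = S3 (h 0) (h 1) (h 2) → IsRot h x y z) :
    SymUniq (convexHull ℝ A) h := by
  set M := S3 (h 0) (h 1) (h 2) with hM
  -- maximum
  have m3 : ∀ x ∈ A, ∀ y ∈ A, ∀ z ∈ convexHull ℝ A, S3 x y z ≤ M := by
    intro x hx y hy z hz
    rw [S3_z]
    exact hull_le (fun z hz => by rw [← S3_z]; exact hmax x hx y hy z hz) z hz
  have m2 : ∀ x ∈ A, ∀ y ∈ convexHull ℝ A, ∀ z ∈ convexHull ℝ A, S3 x y z ≤ M := by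
    intro x hx y hy z hz
    rw [S3_y]
    exact hull_le (fun y hy => by rw [← S3_y]; exact m3 x hx y hy z hz) y hy
  have m1 : ∀ x ∈ convexHull ℝ A, ∀ y ∈ convexHull ℝ A, ∀ z ∈ convexHull ℝ A,
      S3 x y z ≤ M := by
    intro x hx y hy z hz
    rw [S3_x]
    exact hull_le (fun x hx => by rw [← S3_x]; exact m2 x hx y hy z hz) x hx
  -- a hull of a subset of a singleton
  have sing : ∀ (B : Set Pl) (w x : Pl), B ⊆ {w} → x ∈ convexHull ℝ B → x = w := by
    intro B w x hB hx
    have := convexHull_mono hB hx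
    rwa [convexHull_singleton, mem_singleton_iff] at this
  have nonem : ∀ (B : Set Pl) (x : Pl), x ∈ convexHull ℝ B → B.Nonempty := by
    intro B x hx
    exact (convexHull_nonempty_iff).mp ⟨x, hx⟩
  have u3 : ∀ x ∈ A, ∀ y ∈ A, ∀ z ∈ convexHull ℝ A, S3 x y z = M → IsRot h x y z := by
    intro x hx y hy z hz he
    rw [S3_z] at he
    have hf := hull_face (fun z hz => by rw [← S3_z]; exact hmax x hx y hy z hz) hz he
    obtain ⟨z', hz'A, hz'⟩ := nonem _ _ hf
    rw [mem_ofPred_eq, ← S3_z] at hz'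
    obtain ⟨j, e1, e2, e3⟩ := huniq x hx y hy z' hz'A hz'
    refine ⟨j, e1, e2, ?_⟩
    refine sing _ _ _ ?_ hf
    rintro w ⟨hwA, hw⟩
    rw [mem_ofPred_eq, ← S3_z] at hw
    obtain ⟨j', e1', e2', e3'⟩ := huniq x hx y hy w hwA hw
    have : j' = j := hinj (by rw [← e1', ← e1])
    rw [mem_singleton_iff, e3', this]
  have u2 : ∀ x ∈ A, ∀ y ∈ convexHull ℝ A, ∀ z ∈ convexHull ℝ A, S3 x y z = M →
      IsRot h x y z := by
    intro x hx y hy z hz he
    rw [S3_y] at he
    have hf := hull_face (fun y hy => by rw [← S3_y]; exact m3 x hx y hy z hz) hy he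
    obtain ⟨y', hy'A, hy'⟩ := nonem _ _ hf
    rw [mem_ofPred_eq, ← S3_y] at hy'
    obtain ⟨j, e1, e2, e3⟩ := u3 x hx y' hy'A z hz hy'
    refine ⟨j, e1, ?_, e3⟩
    refine sing _ _ _ ?_ hf
    rintro w ⟨hwA, hw⟩
    rw [mem_ofPred_eq, ← S3_y] at hw
    obtain ⟨j', e1', e2', e3'⟩ := u3 x hx w hwA z hz hw
    have : j' = j := hinj (by rw [← e1', ← e1])
    rw [mem_singleton_iff, e2', this]
  have u1 : ∀ x ∈ convexHull ℝ A, ∀ y ∈ convexHull ℝ A, ∀ z ∈ convexHull ℝ A,
      S3 x y z = M → IsRot h x y z := by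
    intro x hx y hy z hz he
    rw [S3_x] at he
    have hf := hull_face (fun x hx => by rw [← S3_x]; exact m2 x hx y hy z hz) hx he
    obtain ⟨x', hx'A, hx'⟩ := nonem _ _ hf
    rw [mem_ofPred_eq, ← S3_x] at hx'
    obtain ⟨j, e1, e2, e3⟩ := u2 x' hx'A y hy z hz hx'
    refine ⟨j, ?_, e2, e3⟩
    refine sing _ _ _ ?_ hf
    rintro w ⟨hwA, hw⟩
    rw [mem_ofPred_eq, ← S3_x] at hw
    obtain ⟨j', e1', e2', e3'⟩ := u2 w hwA y hy z hz hw
    have : j' + 1 = j + 1 := hinj (by rw [← e2', ← e2])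
    have : j' = j := by simpa using this
    rw [mem_singleton_iff, e1', this]
  exact ⟨fun i => subset_convexHull ℝ _ (hmem i), htri, m1, u1⟩

/-! ### the finite check -/

theorem fin_check {h : Fin 3 → Pl} (ht : StrictTri h) (i j k : Fin 6) :
    (j = i + 1 ∧ k = i + 2 ∧ S3 (Hx h i) (Hx h j) (Hx h k) = S3 (h 0) (h 1) (h 2)) ∨
      S3 (Hx h i) (Hx h j) (Hx h k) < S3 (h 0) (h 1) (h 2) := by
  obtain ⟨t1, t2, t3⟩ := ht
  have s01 : cr (h 1) (h 0) = - cr (h 0) (h 1) := cr_swap _ _
  have s12 : cr (h 2) (h 1) = - cr (h 1) (h 2) := cr_swap _ _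
  have s02 : cr (h 2) (h 0) = - cr (h 0) (h 2) := cr_swap _ _
  fin_cases i <;> fin_cases j <;> fin_cases k <;>
    simp only [Hx, S3, cr_neg_left, cr_neg_right, cr_self, s01, s12, s02, Fin.mk_zero, Fin.mk_one,
      Fin.reduceFinMk, Matrix.cons_val, Fin.zero_eta, Fin.isValue, neg_neg, neg_zero] <;>
    first
    | (right; linarith)
    | (left; refine ⟨by decide, by decide, ?_⟩; first | trivial | ring)

theorem tri_pos {h : Fin 3 → Pl} (ht : StrictTri h) :
    0 < cr (h 0) (h 1) ∧ 0 < cr (h 1) (h 2) ∧ 0 < cr (h 0) (h 2) := by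
  obtain ⟨t1, t2, t3⟩ := ht
  refine ⟨by linarith, by linarith, by linarith⟩

theorem hx_inj {h : Fin 3 → Pl} (ht : StrictTri h) : Function.Injective (Hx h) := by
  obtain ⟨p1, p2, p3⟩ := tri_pos ht
  have s01 : cr (h 1) (h 0) = - cr (h 0) (h 1) := cr_swap _ _
  have s12 : cr (h 2) (h 1) = - cr (h 1) (h 2) := cr_swap _ _
  have s02 : cr (h 2) (h 0) = - cr (h 0) (h 2) := cr_swap _ _
  intro i j hij
  have e0 := congrArg (fun v => cr v (h 0)) hij
  have e1 := congrArg (fun v => cr v (h 1)) hij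
  have e2 := congrArg (fun v => cr v (h 2)) hij
  fin_cases i <;> fin_cases j <;>
    simp only [Hx, cr_neg_left, cr_neg_right, cr_self, s01, s12, s02, Fin.mk_zero, Fin.mk_one,
      Fin.reduceFinMk, Matrix.cons_val, Fin.zero_eta, Fin.isValue, neg_neg, neg_zero] at e0 e1 e2 ⊢ <;>
    first
    | rfl
    | (exfalso; linarith)

/-- no collinear ends -/
structure Nce (h : Fin 3 → Pl) : Prop where
  n1 : 3 * cr (h 0) (h 1) ≠ cr (h 1) (h 2) + cr (h 0) (h 2)
  n2 : 3 * cr (h 1) (h 2) ≠ cr (h 0) (h 1) + cr (h 0) (h 2)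
  n3 : 3 * cr (h 0) (h 2) ≠ cr (h 0) (h 1) + cr (h 1) (h 2)

/-! ### the perturbation -/

theorem pluecker (p0 p1 p2 : Pl) :
    (cr p0 p2) • p1 = (cr p1 p2) • p0 + (cr p0 p1) • p2 := by
  ext i
  fin_cases i <;> simp [cr] <;> ring

theorem perturb {K : Set Pl} (hK : Convex ℝ K) (h0 : (0 : Pl) ∈ K) {p : Fin 3 → Pl}
    (hp : ∀ i, p i ∈ K) {T : ℝ} (hT : 0 < T) (hTp : S3 (p 0) (p 1) (p 2) = T)
    (hmax : ∀ x ∈ K, ∀ y ∈ K, 2 * cr x y ≤ T)
    (hbig : T ≤ 3 * cr (p 0) (p 2)) {s0 : ℝ} (hs0 : 0 < s0) (hs1 : s0 ≤ 1) :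
    ∃ s : ℝ, 0 < s ∧ s < s0 ∧ ∃ h : Fin 3 → Pl, (∀ i, h i ∈ (1 + s) • K) ∧ StrictTri h ∧
      T ≤ S3 (h 0) (h 1) (h 2) ∧ Nce h := by
  set a := cr (p 0) (p 1) with ha
  set b := cr (p 1) (p 2) with hb
  set c := cr (p 0) (p 2) with hc
  have hsum : a + b + c = T := hTp
  have ha2 : 2 * a ≤ T := hmax _ (hp 0) _ (hp 1)
  have hb2 : 2 * b ≤ T := hmax _ (hp 1) _ (hp 2)
  have hc2 : 2 * c ≤ T := hmax _ (hp 0) _ (hp 2)
  have ha0 : 0 ≤ a := by linarith
  have hb0 : 0 ≤ b := by linarith
  -- generic parameter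
  have hbad : ({(T / 4 - a) / (T / 3 - a), (T / 4 - b) / (T / 3 - b),
      (T / 4 - c) / (T / 3 - c)} : Set ℝ).Finite := by
    exact (Set.finite_singleton _).insert _ |>.insert _
  obtain ⟨s, hs, hsb⟩ := ((Set.Ioo_infinite hs0).sdiff hbad).nonempty
  have hs_pos : 0 < s := hs.1
  have hs_lt : s < s0 := hs.2
  have hs_1 : s < 1 := lt_of_lt_of_le hs_lt hs1
  have gen : ∀ u : ℝ, s ≠ (T / 4 - u) / (T / 3 - u) → (1 - s) * u + s * (T / 3) ≠ T / 4 := by
    intro u hu he
    rcases eq_or_ne (T / 3 - u) 0 with h1 | h1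
    · have : u = T / 3 := by linarith
      rw [this] at he
      nlinarith
    · apply hu
      rw [eq_div_iff h1]
      nlinarith
  simp only [mem_insert_iff, mem_singleton_iff, not_or] at hsb
  have ga := gen a hsb.1
  have gb := gen b hsb.2.1
  have gc := gen c hsb.2.2
  set a' := (1 - s) * a + s * (T / 3) with ha'
  set b' := (1 - s) * b + s * (T / 3) with hb'
  set c' := (1 - s) * c + s * (T / 3) with hc'
  have hsum' : a' + b' + c' = T := by
    rw [ha', hb', hc', ← hsum]; ring
  have hcT : T / 3 ≤ c := by linarith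
  have hc'T : T / 3 ≤ c' := by
    rw [hc']; nlinarith
  have hc'0 : 0 < c' := by linarith
  have hc'c : c' ≤ c := by
    rw [hc']; nlinarith
  have hc0 : 0 < c := by linarith
  have ha'2 : 2 * a' < T := by rw [ha']; nlinarith
  have hb'2 : 2 * b' < T := by rw [hb']; nlinarith
  have hc'2 : 2 * c' < T := by rw [hc']; nlinarith
  refine ⟨s, hs_pos, hs_lt, ![p 0, (1 / c') • (b' • p 0 + a' • p 2), p 2], ?_, ?_, ?_, ?_⟩
  · have hsub : ∀ x ∈ K, x ∈ (1 + s) • K := by
      intro x hx
      refine ⟨(1 + s)⁻¹ • x, hK.smul_mem_of_zero_mem h0 hx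
        ⟨by positivity, inv_le_one_of_one_le₀ (by linarith)⟩, ?_⟩
      simp only
      rw [smul_smul, mul_inv_cancel₀ (by linarith), one_smul]
    intro i
    fin_cases i
    · exact hsub _ (hp 0)
    · simp only [Fin.mk_one, Fin.isValue, Matrix.cons_val_one, Matrix.cons_val_zero]
      set D := (1 - s) * c + 2 * s * (T / 3) with hD
      have hD0 : 0 < D := by
        have : 0 < 1 - s := by linarith
        positivity
      have hm : (1 / 2 : ℝ) • p 0 + (1 / 2 : ℝ) • p 2 ∈ K :=
        hK (hp 0) (hp 2) (by norm_num) (by norm_num) (by norm_num)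
      have hw : ((1 - s) * c / D) • p 1 +
          (2 * s * (T / 3) / D) • ((1 / 2 : ℝ) • p 0 + (1 / 2 : ℝ) • p 2) ∈ K := by
        refine hK (hp 1) hm ?_ (by positivity) ?_
        · have : 0 < 1 - s := by linarith
          positivity
        · rw [← add_div, ← hD, div_self hD0.ne']
      have hDc : D ≤ c' * (1 + s) := by
        have : D = c' + s * (T / 3) := by rw [hD, hc']; ring
        rw [this]; nlinarith
      have hk := hK.smul_mem_of_zero_mem h0 hw (t := D / (c' * (1 + s)))
        ⟨by positivity, by rw [div_le_one (by positivity)]; exact hDc⟩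
      refine ⟨_, hk, ?_⟩
      have hpl := pluecker (p 0) (p 1) (p 2)
      rw [← ha, ← hb, ← hc] at hpl
      simp only
      rw [smul_smul]
      have e1 : (1 + s) * (D / (c' * (1 + s))) = D / c' := by field_simp
      rw [e1, smul_add, smul_smul, smul_smul, smul_add, smul_smul, smul_smul]
      have e2 : D / c' * ((1 - s) * c / D) = (1 - s) / c' * c := by field_simp
      have e3 : D / c' * (2 * s * (T / 3) / D) * (1 / 2) = s * (T / 3) / c' := by field_simp
      rw [e2, e3, mul_smul, hpl]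
      ext i
      fin_cases i
      · simp only [Fin.zero_eta, Fin.isValue, PiLp.add_apply, PiLp.smul_apply, smul_eq_mul]
        rw [hb', ha']
        field_simp
        ring
      · simp only [Fin.mk_one, Fin.isValue, PiLp.add_apply, PiLp.smul_apply, smul_eq_mul]
        rw [hb', ha']
        field_simp
        ring
    · exact hsub _ (hp 2)
  all_goals
    have e01 : cr (p 0) ((1 / c') • (b' • p 0 + a' • p 2)) = a' * (c / c') := by
      rw [cr_smul_right, cr_add_right, cr_smul_right, cr_smul_right, cr_self, ← hc]; ring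
    have e12 : cr ((1 / c') • (b' • p 0 + a' • p 2)) (p 2) = b' * (c / c') := by
      rw [cr_smul_left, cr_add_left, cr_smul_left, cr_smul_left, cr_self, ← hc]; ring
    have e02 : cr (p 0) (p 2) = c' * (c / c') := by
      rw [← hc]; field_simp
    have hq1 : 1 ≤ c / c' := by rw [le_div_iff₀ hc'0]; linarith
    have hq0 : 0 < c / c' := by linarith
  · constructor
    · simp only [Fin.isValue, Matrix.cons_val_zero, Matrix.cons_val_one, Matrix.cons_val]
      rw [e01, e12, e02]; nlinarith
    · simp only [Fin.isValue, Matrix.cons_val_zero, Matrix.cons_val_one, Matrix.cons_val]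
      rw [e01, e12, e02]; nlinarith
    · simp only [Fin.isValue, Matrix.cons_val_zero, Matrix.cons_val_one, Matrix.cons_val]
      rw [e01, e12, e02]; nlinarith
  · simp only [S3, Fin.isValue, Matrix.cons_val_zero, Matrix.cons_val_one, Matrix.cons_val]
    rw [e01, e12, e02]
    nlinarith
  · constructor
    · simp only [Fin.isValue, Matrix.cons_val_zero, Matrix.cons_val_one, Matrix.cons_val]
      rw [e01, e12, e02]
      intro he
      have : 3 * a' = b' + c' := by
        have h3 : (3 * a' - (b' + c')) * (c / c') = 0 := by linear_combination he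
        rcases mul_eq_zero.mp h3 with h4 | h4
        · linarith
        · exact absurd h4 hq0.ne'
      apply ga; linarith
    · simp only [Fin.isValue, Matrix.cons_val_zero, Matrix.cons_val_one, Matrix.cons_val]
      rw [e01, e12, e02]
      intro he
      have : 3 * b' = a' + c' := by
        have h3 : (3 * b' - (a' + c')) * (c / c') = 0 := by linear_combination he
        rcases mul_eq_zero.mp h3 with h4 | h4
        · linarith
        · exact absurd h4 hq0.ne'
      apply gb; linarith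
    · simp only [Fin.isValue, Matrix.cons_val_zero, Matrix.cons_val_one, Matrix.cons_val]
      rw [e01, e12, e02]
      intro he
      have : 3 * c' = a' + b' := by
        have h3 : (3 * c' - (a' + b')) * (c / c') = 0 := by linear_combination he
        rcases mul_eq_zero.mp h3 with h4 | h4
        · linarith
        · exact absurd h4 hq0.ne'
      apply gc; linarith

end

end C2305b.Rig
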