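import Pool.Agent.W_c2305b_h89.Density

/-! MP_c2305b_co: density, second part. -/

open Set
open scoped Pointwise

namespace C2305b.Rig

noncomputable section

theorem hx_smul (t : ℝ) (h : Fin 3 → Pl) (i : Fin 6) : Hx (fun k => t • h k) i = t • Hx h i := by
  fin_cases i <;> simp [Hx]

theorem S3_smul (t : ℝ) (x y z : Pl) : S3 (t • x) (t • y) (t • z) = t ^ 2 * S3 x y z := by
  simp only [S3, cr_smul_left, cr_smul_right]; ring

theorem StrictTri.smul {h : Fin 3 → Pl} (ht : StrictTri h) {t : ℝ} (h0 : 0 < t) :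
    StrictTri (fun k => t • h k) := by
  obtain ⟨t1, t2, t3⟩ := ht
  have := mul_pos h0 h0
  constructor <;> simp only [cr_smul_left, cr_smul_right] <;> nlinarith

theorem Nce.smul {h : Fin 3 → Pl} (ht : Nce h) {t : ℝ} (h0 : 0 < t) :
    Nce (fun k => t • h k) := by
  obtain ⟨t1, t2, t3⟩ := ht
  have hne : t * t ≠ 0 := (mul_pos h0 h0).ne'
  constructor <;> simp only [cr_smul_left, cr_smul_right] <;> intro he
  · apply t1
    have h3 : (3 * cr (h 0) (h 1) - (cr (h 1) (h 2) + cr (h 0) (h 2))) * (t * t) = 0 := by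
      linear_combination he
    rcases mul_eq_zero.mp h3 with h4 | h4
    · linarith
    · exact absurd h4 hne
  · apply t2
    have h3 : (3 * cr (h 1) (h 2) - (cr (h 0) (h 1) + cr (h 0) (h 2))) * (t * t) = 0 := by
      linear_combination he
    rcases mul_eq_zero.mp h3 with h4 | h4
    · linarith
    · exact absurd h4 hne
  · apply t3
    have h3 : (3 * cr (h 0) (h 2) - (cr (h 0) (h 1) + cr (h 1) (h 2))) * (t * t) = 0 := by
      linear_combination he
    rcases mul_eq_zero.mp h3 with h4 | h4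
    · linarith
    · exact absurd h4 hne

/-- one coordinate in `K`, the others in `τ K` -/
theorem mixed_bound {K : Set Pl} {T τ : ℝ} (hτ : 1 ≤ τ)
    (hmax : ∀ x ∈ K, ∀ y ∈ K, ∀ z ∈ K, S3 x y z ≤ T) {x y z : Pl} (hx : x ∈ K)
    (hy : y ∈ τ • K) (hz : z ∈ τ • K) : S3 x y z ≤ T * (τ * (1 + τ) / 2) := by
  obtain ⟨y, hy, rfl⟩ := hy
  obtain ⟨z, hz, rfl⟩ := hz
  have h1 := hmax x hx y hy z hz
  have h2 := hmax y hy z hz z hz
  simp only [S3, cr_self] at h1 h2
  simp only [S3, cr_smul_left, cr_smul_right]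
  nlinarith [mul_nonneg (sub_nonneg.mpr hτ) (sub_nonneg.mpr hτ),
    mul_le_mul_of_nonneg_left h1 (by linarith : (0:ℝ) ≤ τ),
    mul_le_mul_of_nonneg_left h2 (by nlinarith : (0:ℝ) ≤ τ * (τ - 1))]

theorem mixed_bound' {K : Set Pl} (hsym : ∀ v ∈ K, -v ∈ K) {T τ : ℝ} (hτ : 1 ≤ τ)
    (hmax : ∀ x ∈ K, ∀ y ∈ K, ∀ z ∈ K, S3 x y z ≤ T) {x y z : Pl}
    (hx : x ∈ τ • K) (hy : y ∈ τ • K) (hz : z ∈ τ • K) (hor : x ∈ K ∨ y ∈ K ∨ z ∈ K) :
    S3 x y z ≤ T * (τ * (1 + τ) / 2) := by
  have hsymτ : ∀ v ∈ τ • K, -v ∈ τ • K := by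
    rintro _ ⟨v, hv, rfl⟩
    exact ⟨-v, hsym v hv, by simp⟩
  rcases hor with h | h | h
  · exact mixed_bound hτ hmax h hy hz
  · rw [← S3_rot]
    exact mixed_bound hτ hmax h hz (hsymτ x hx)
  · rw [← S3_rot, ← S3_rot]
    exact mixed_bound hτ hmax h (hsymτ x hx) (hsymτ y hy)

/-- rotations of the six points -/
theorem symUniq_generators {K : Set Pl} (hK : Convex ℝ K) (h0 : (0 : Pl) ∈ K)
    (hsym : ∀ v ∈ K, -v ∈ K) {T : ℝ} (hT : 0 < T)
    (hmax : ∀ x ∈ K, ∀ y ∈ K, ∀ z ∈ K, S3 x y z ≤ T) {h : Fin 3 → Pl} {s t : ℝ} (hs : 0 ≤ s)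
    (ht : 1 < t) (hh : ∀ i, h i ∈ (1 + s) • K) (htri : StrictTri h)
    (hTh : T ≤ S3 (h 0) (h 1) (h 2)) (hst : (1 + s) * (1 + t * (1 + s)) < 2 * t) :
    SymUniq (convexHull ℝ (K ∪ range (fun i => t • Hx h i))) (fun k => t • h k) := by
  set τ := t * (1 + s) with hτ
  have hτ1 : 1 ≤ τ := by rw [hτ]; nlinarith
  have hsubτ : ∀ x ∈ K, x ∈ τ • K := by
    intro x hx
    refine ⟨τ⁻¹ • x, hK.smul_mem_of_zero_mem h0 hx
      ⟨by positivity, inv_le_one_of_one_le₀ hτ1⟩, ?_⟩
    simp only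
    rw [smul_smul, mul_inv_cancel₀ (by linarith), one_smul]
  have hHτ : ∀ i, t • Hx h i ∈ τ • K := by
    have h1 : ∀ k, t • h k ∈ τ • K := by
      intro k
      obtain ⟨v, hv, hv2⟩ := hh k
      refine ⟨v, hv, ?_⟩
      simp only at hv2 ⊢
      rw [← hv2, smul_smul, hτ]
    have h2 : ∀ k, t • (- h k) ∈ τ • K := by
      intro k
      obtain ⟨v, hv, hv2⟩ := h1 k
      refine ⟨-v, hsym v hv, ?_⟩
      simp only at hv2 ⊢
      rw [smul_neg, smul_neg, hv2]
    intro i
    fin_cases i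
    · exact h1 0
    · exact h1 1
    · exact h1 2
    · exact h2 0
    · exact h2 1
    · exact h2 2
  have hA : ∀ x ∈ K ∪ range (fun i => t • Hx h i), x ∈ τ • K := by
    rintro x (hx | ⟨i, rfl⟩)
    · exact hsubτ x hx
    · exact hHτ i
  have hMS : S3 (t • h 0) (t • h 1) (t • h 2) = t ^ 2 * S3 (h 0) (h 1) (h 2) := S3_smul _ _ _ _
  have hlt : T * (τ * (1 + τ) / 2) < S3 (t • h 0) (t • h 1) (t • h 2) := by
    rw [hMS]
    have h1 : τ * (1 + τ) / 2 < t ^ 2 := by
      rw [hτ]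
      nlinarith
    have h2 : t ^ 2 * T ≤ t ^ 2 * S3 (h 0) (h 1) (h 2) :=
      mul_le_mul_of_nonneg_left hTh (by positivity)
    nlinarith
  have key : ∀ x ∈ K ∪ range (fun i => t • Hx h i), ∀ y ∈ K ∪ range (fun i => t • Hx h i),
      ∀ z ∈ K ∪ range (fun i => t • Hx h i),
      S3 x y z < S3 (t • h 0) (t • h 1) (t • h 2) ∨
      (S3 x y z = S3 (t • h 0) (t • h 1) (t • h 2) ∧ IsRot (fun k => t • h k) x y z) := by
    intro x hx y hy z hz
    have hx' := hA x hx
    have hy' := hA y hy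
    have hz' := hA z hz
    rcases hx with hx | ⟨i, rfl⟩
    · exact Or.inl (lt_of_le_of_lt (mixed_bound' hsym hτ1 hmax hx' hy' hz' (Or.inl hx)) hlt)
    rcases hy with hy | ⟨j, rfl⟩
    · exact Or.inl (lt_of_le_of_lt
        (mixed_bound' hsym hτ1 hmax hx' hy' hz' (Or.inr (Or.inl hy))) hlt)
    rcases hz with hz | ⟨k, rfl⟩
    · exact Or.inl (lt_of_le_of_lt
        (mixed_bound' hsym hτ1 hmax hx' hy' hz' (Or.inr (Or.inr hz))) hlt)
    have ht0 : 0 < t := by linarith
    have hc := fin_check (htri.smul ht0) i j k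
    simp only [hx_smul] at hc
    rcases hc with ⟨e1, e2, e3⟩ | hc
    · right
      refine ⟨e3, i, ?_, ?_, ?_⟩
      · rw [hx_smul]
      · rw [hx_smul, e1]
      · rw [hx_smul, e2]
    · exact Or.inl hc
  refine symUniq_hull (h := fun k => t • h k) ?_ (htri.smul (by linarith))
    (hx_inj (htri.smul (by linarith))) ?_ ?_
  · intro i
    right
    fin_cases i
    · exact ⟨0, by simp [Hx]⟩
    · exact ⟨1, by simp [Hx]⟩
    · exact ⟨2, by simp [Hx]⟩
  · intro x hx y hy z hz
    rcases key x hx y hy z hz with h1 | h1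
    · exact h1.le
    · exact h1.1.le
  · intro x hx y hy z hz he
    rcases key x hx y hy z hz with h1 | h1
    · exact absurd he h1.ne
    · exact h1.2

theorem isCompact_hull {K : Set Pl} (hK : Convex ℝ K) (hKc : IsCompact K) (hne : K.Nonempty)
    {F : Set Pl} (hF : F.Finite) (hFne : F.Nonempty) : IsCompact (convexHull ℝ (K ∪ F)) := by
  rw [convexHull_union hne hFne, hK.convexHull_eq]
  have hFc : IsCompact (convexHull ℝ F) := hF.isCompact_convexHull ℝ
  have himg : convexJoin ℝ K (convexHull ℝ F) =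
      (fun p : ℝ × Pl × Pl => (1 - p.1) • p.2.1 + p.1 • p.2.2) ''
        (Icc (0 : ℝ) 1 ×ˢ K ×ˢ convexHull ℝ F) := by
    ext x
    simp only [mem_convexJoin, mem_image, mem_prod, Prod.exists]
    constructor
    · rintro ⟨a, ha, b, hb, hx⟩
      rw [segment_eq_image] at hx
      obtain ⟨θ, hθ, rfl⟩ := hx
      exact ⟨θ, a, b, ⟨hθ, ha, hb⟩, rfl⟩
    · rintro ⟨θ, a, b, ⟨hθ, ha, hb⟩, rfl⟩
      refine ⟨a, ha, b, hb, ?_⟩
      rw [segment_eq_image]
      exact ⟨θ, hθ, rfl⟩
  rw [himg]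
  exact (isCompact_Icc.prod (hKc.prod hFc)).image (by fun_prop)

/-- DENSITY. -/
theorem exists_symUniq_near {K : Set Pl} (hK : Convex ℝ K) (hKc : IsCompact K)
    (hsym : ∀ v ∈ K, -v ∈ K) (hint : (interior K).Nonempty) {ε : ℝ} (hε : 0 < ε) :
    ∃ (K1 : Set Pl) (h : Fin 3 → Pl), K ⊆ K1 ∧ K1 ⊆ (1 + ε) • K ∧ Convex ℝ K1 ∧ IsCompact K1 ∧
      (∀ v ∈ K1, -v ∈ K1) ∧ SymUniq K1 h ∧ Nce h := by
  -- 0 is an interior point
  have hneg : -K = K := by
    ext v
    constructor
    · intro hv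
      have := hsym _ hv
      rwa [neg_neg] at this
    · intro hv
      exact hsym v hv
  have h0int : (0 : Pl) ∈ interior K := by
    obtain ⟨x, hx⟩ := hint
    have hx' : -x ∈ interior K := by
      have h1 : -x ∈ -interior K := by simpa using hx
      have h2 : -interior K = interior (-K) := by
        ext v
        constructor
        · intro hv
          exact interior_maximal (neg_subset_neg.mpr interior_subset) (isOpen_interior.neg) hv
        · intro hv
          have h3 : -interior (-K) ⊆ interior K :=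
            interior_maximal (by
              intro w hw
              have := interior_subset hw
              simpa using this) isOpen_interior.neg
          have h4 : -v ∈ -interior (-K) := by simpa using hv
          exact h3 h4
      rw [h2, hneg] at h1
      exact h1
    have h3 := hK.interior hx hx' (by norm_num : (0:ℝ) ≤ 1/2) (by norm_num : (0:ℝ) ≤ 1/2)
      (by norm_num)
    have h4 : (1 / 2 : ℝ) • x + (1 / 2 : ℝ) • (-x) = 0 := by
      rw [smul_neg, add_neg_cancel]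
    rwa [h4] at h3
  have h0 : (0 : Pl) ∈ K := interior_subset h0int
  have hne : K.Nonempty := ⟨0, h0⟩
  -- a maximal triple
  obtain ⟨p, hp, hpmax⟩ := (hKc.prod (hKc.prod hKc)).exists_isMaxOn
    (hne.prod (hne.prod hne)) continuous_S3.continuousOn
  have hpm : ∀ x ∈ K, ∀ y ∈ K, ∀ z ∈ K, S3 x y z ≤ S3 p.1 p.2.1 p.2.2 := by
    intro x hx y hy z hz
    exact hpmax (show (x, y, z) ∈ K ×ˢ K ×ˢ K from ⟨hx, hy, hz⟩)
  set T := S3 p.1 p.2.1 p.2.2 with hTdef
  have hp1 : p.1 ∈ K := hp.1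
  have hp2 : p.2.1 ∈ K := hp.2.1
  have hp3 : p.2.2 ∈ K := hp.2.2
  have htwo : ∀ x ∈ K, ∀ y ∈ K, 2 * cr x y ≤ T := by
    intro x hx y hy
    have := hpm x hx y hy y hy
    simp only [S3, cr_self] at this
    linarith
  have hT : 0 < T := by
    obtain ⟨ρ, hρ, hball⟩ := Metric.isOpen_iff.mp isOpen_interior 0 h0int
    have hb : ∀ v : Pl, ‖v‖ < ρ → v ∈ K := fun v hv =>
      interior_subset (hball (by rwa [mem_ball_zero_iff]))
    have e1 : ‖(!₂[ρ / 2, 0] : Pl)‖ < ρ := by
      rw [EuclideanSpace.norm_eq]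
      simp only [Fin.sum_univ_two, Matrix.cons_val_zero, Matrix.cons_val_one, PiLp.toLp_apply]
      simp only [norm_zero, Real.norm_eq_abs, sq_abs, ne_eq, OfNat.ofNat_ne_zero,
        not_false_eq_true, zero_pow, add_zero]
      rw [Real.sqrt_sq (by positivity)]
      linarith
    have e2 : ‖(!₂[0, ρ / 2] : Pl)‖ < ρ := by
      rw [EuclideanSpace.norm_eq]
      simp only [Fin.sum_univ_two, Matrix.cons_val_zero, Matrix.cons_val_one, PiLp.toLp_apply]
      simp only [norm_zero, Real.norm_eq_abs, sq_abs, ne_eq, OfNat.ofNat_ne_zero,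
        not_false_eq_true, zero_pow, zero_add]
      rw [Real.sqrt_sq (by positivity)]
      linarith
    have := htwo _ (hb _ e1) _ (hb _ e2)
    have e3 : cr (!₂[ρ / 2, 0] : Pl) (!₂[0, ρ / 2] : Pl) = ρ / 2 * (ρ / 2) := by
      simp [cr]
    rw [e3] at this
    nlinarith [mul_pos hρ hρ]
  -- rotate such that the last cross product is the largest
  have hrot : ∃ q : Fin 3 → Pl, (∀ i, q i ∈ K) ∧ S3 (q 0) (q 1) (q 2) = T ∧
      T ≤ 3 * cr (q 0) (q 2) := by
    have hS : cr p.1 p.2.1 + cr p.2.1 p.2.2 + cr p.1 p.2.2 = T := rfl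
    by_cases c1 : T ≤ 3 * cr p.1 p.2.2
    · refine ⟨![p.1, p.2.1, p.2.2], ?_, rfl, c1⟩
      intro i; fin_cases i
      · exact hp1
      · exact hp2
      · exact hp3
    · by_cases c2 : T ≤ 3 * cr p.1 p.2.1
      · refine ⟨![p.2.1, p.2.2, - p.1], ?_, ?_, ?_⟩
        · intro i; fin_cases i
          · exact hp2
          · exact hp3
          · exact hsym _ hp1
        · exact S3_rot _ _ _
        · show T ≤ 3 * cr p.2.1 (-p.1)
          rw [cr_neg_right, cr_swap p.2.1 p.1, neg_neg]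
          exact c2
      · refine ⟨![p.2.2, - p.1, - p.2.1], ?_, ?_, ?_⟩
        · intro i; fin_cases i
          · exact hp3
          · exact hsym _ hp1
          · exact hsym _ hp2
        · show S3 p.2.2 (-p.1) (-p.2.1) = T
          rw [S3_rot, S3_rot]
        · show T ≤ 3 * cr p.2.2 (-p.2.1)
          rw [cr_neg_right, cr_swap p.2.2 p.2.1, neg_neg]
          linarith
  obtain ⟨q, hq, hqT, hqbig⟩ := hrot
  -- parameters
  set t := 1 + min (ε / 3) 1 with ht
  have hm0 : 0 < min (ε / 3) 1 := lt_min (by positivity) one_pos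
  have hm1 : min (ε / 3) 1 ≤ 1 := min_le_right _ _
  have hm2 : min (ε / 3) 1 ≤ ε / 3 := min_le_left _ _
  have ht1 : 1 < t := by linarith
  have ht2 : t ≤ 2 := by linarith
  obtain ⟨s, hs0, hs1, h, hh, htri, hTh, hnce⟩ := perturb hK h0 hq hT hqT htwo hqbig
    (s0 := (t - 1) / 8) (by linarith) (by linarith)
  have hst : (1 + s) * (1 + t * (1 + s)) < 2 * t := by
    have h1 : 1 + 2 * t + t * s ≤ 6 := by nlinarith
    have h2 : s * (1 + 2 * t + t * s) ≤ s * 6 := mul_le_mul_of_nonneg_left h1 hs0.le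
    nlinarith
  refine ⟨convexHull ℝ (K ∪ range (fun i => t • Hx h i)), fun k => t • h k,
    fun x hx => subset_convexHull ℝ _ (Or.inl hx), ?_, convex_convexHull ℝ _, ?_, ?_, ?_, ?_⟩
  · -- inside (1 + ε) K
    refine convexHull_min ?_ (hK.smul _)
    have h1e : (0 : ℝ) < 1 + ε := by linarith
    have hscale : ∀ w ∈ K, ∀ r : ℝ, 0 ≤ r → r ≤ 1 + ε → r • w ∈ (1 + ε) • K := by
      intro w hw r hr0 hr1
      refine ⟨(r / (1 + ε)) • w, hK.smul_mem_of_zero_mem h0 hw
        ⟨by positivity, by rw [div_le_one h1e]; exact hr1⟩, ?_⟩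
      simp only
      rw [smul_smul, mul_div_cancel₀ _ h1e.ne']
    have hprod : t * (1 + s) ≤ 1 + ε := by nlinarith
    have hH : ∀ k, t • h k ∈ (1 + ε) • K := by
      intro k
      obtain ⟨v, hv, hv2⟩ := hh k
      simp only at hv2
      rw [← hv2, smul_smul]
      exact hscale v hv _ (by positivity) hprod
    have hHn : ∀ k, t • (- h k) ∈ (1 + ε) • K := by
      intro k
      obtain ⟨v, hv, hv2⟩ := hh k
      simp only at hv2
      rw [← hv2, ← smul_neg, smul_smul]
      exact hscale (-v) (hsym v hv) _ (by positivity) hprod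
    rintro x (hx | ⟨i, rfl⟩)
    · have := hscale x hx 1 zero_le_one (by linarith)
      rwa [one_smul] at this
    · fin_cases i
      · exact hH 0
      · exact hH 1
      · exact hH 2
      · exact hHn 0
      · exact hHn 1
      · exact hHn 2
  · exact isCompact_hull hK hKc hne (finite_range _) (range_nonempty _)
  · -- symmetry
    have hA : -(K ∪ range (fun i => t • Hx h i)) = K ∪ range (fun i => t • Hx h i) := by
      rw [union_neg, hneg]
      congr 1
      ext x
      simp only [mem_neg, mem_range]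
      constructor
      · rintro ⟨i, hi⟩
        have hx : x = - (t • Hx h i) := by rw [hi, neg_neg]
        fin_cases i
        · exact ⟨3, by rw [hx]; simp [Hx]⟩
        · exact ⟨4, by rw [hx]; simp [Hx]⟩
        · exact ⟨5, by rw [hx]; simp [Hx]⟩
        · exact ⟨0, by rw [hx]; simp [Hx]⟩
        · exact ⟨1, by rw [hx]; simp [Hx]⟩
        · exact ⟨2, by rw [hx]; simp [Hx]⟩
      · rintro ⟨i, rfl⟩
        fin_cases i
        · exact ⟨3, by simp [Hx]⟩
        · exact ⟨4, by simp [Hx]⟩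
        · exact ⟨5, by simp [Hx]⟩
        · exact ⟨0, by simp [Hx]⟩
        · exact ⟨1, by simp [Hx]⟩
        · exact ⟨2, by simp [Hx]⟩
    intro v hv
    have h1 : -v ∈ -convexHull ℝ (K ∪ range (fun i => t • Hx h i)) := by simpa using hv
    rw [← convexHull_neg, hA] at h1
    exact h1
  · exact symUniq_generators hK h0 hsym hT (fun x hx y hy z hz => hpm x hx y hy z hz) hs0.le ht1
      hh htri hTh hst
  · exact hnce.smul (by linarith)

end

end C2305b.Rig
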