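import Pool.Agent.W_c2305b_h89.Family
import Pool.Agent.W_c2305b_h89.Density2

/-! MP_c2305b_co: the exceptional compact set and the uniform threshold away from it. -/

open Set MeasureTheory TopologicalSpace Metric
open scoped Pointwise

namespace C2305b

/-- one threshold for all convex bodies near `K1` and all their affine images -/
def Good (K1 : NonemptyCompacts Pl) : Prop :=
  ∃ δ > (0 : ℝ), ∃ N : ℕ, ∀ K2 : NonemptyCompacts Pl, dist K2 K1 < δ →
    Convex ℝ (K2 : Set Pl) → ∀ K : Set Pl, Convex ℝ K → IsCompact K →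
    ∀ (A : Pl ≃L[ℝ] Pl) (v : Pl), (fun x => A x + v) '' K = K2 → HexBound K N

theorem good_of_threshold {K0 : NonemptyCompacts Pl} (hc : Convex ℝ (K0 : Set Pl)) {ρ : ℝ}
    (hρ : 0 < ρ) (hb : ball (0 : Pl) ρ ⊆ K0) (hT : Threshold (K0 : Set Pl)) : Good K0 := by
  obtain ⟨δ, hδ, N, h⟩ := exists_nhds_threshold K0 hc hρ hb hT
  exact ⟨δ, hδ, N, h⟩

theorem isOpen_good : IsOpen {K : NonemptyCompacts Pl | Good K} := by
  rw [Metric.isOpen_iff]
  rintro K1 ⟨δ, hδ, N, h⟩
  refine ⟨δ / 2, by positivity, ?_⟩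
  intro K1' hK1'
  refine ⟨δ / 2, by positivity, N, ?_⟩
  intro K2 hK2 h2c
  refine h K2 ?_ h2c
  rw [mem_ball] at hK1'
  calc dist K2 K1 ≤ dist K2 K1' + dist K1' K1 := dist_triangle _ _ _
    _ < δ := by linarith

/-- normalised symmetric convex bodies -/
def Nrm : Set (NonemptyCompacts Pl) :=
  {L | Convex ℝ (L : Set Pl) ∧ (∀ v ∈ (L : Set Pl), -v ∈ (L : Set Pl)) ∧
    closedBall (0 : Pl) 1 ⊆ (L : Set Pl) ∧ (L : Set Pl) ⊆ closedBall 0 2}

theorem near_right {L L' : NonemptyCompacts Pl} {ε : ℝ} (h : dist L L' < ε) {x : Pl}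
    (hx : x ∈ (L : Set Pl)) : ∃ y ∈ (L' : Set Pl), dist x y < ε := by
  have hne : hausdorffEDist (L : Set Pl) (L' : Set Pl) ≠ ⊤ :=
    hausdorffEDist_ne_top_of_nonempty_of_bounded L.nonempty L'.nonempty
      L.isCompact.isBounded L'.isCompact.isBounded
  rw [NonemptyCompacts.dist_eq] at h
  exact exists_dist_lt_of_hausdorffDist_lt hx h hne

theorem mem_of_near {L : NonemptyCompacts Pl} {z : Pl}
    (h : ∀ ε > (0 : ℝ), ∃ w ∈ (L : Set Pl), dist z w < ε) : z ∈ (L : Set Pl) := by
  have : z ∈ closure (L : Set Pl) := Metric.mem_closure_iff.mpr h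
  rwa [L.isCompact.isClosed.closure_eq] at this

theorem isCompact_nrm : IsCompact Nrm := by
  refine (NonemptyCompacts.isCompact_subsets_of_isCompact
    (isCompact_closedBall (0 : Pl) 2)).of_isClosed_subset ?_ (fun L hL => hL.2.2.2)
  refine isClosed_of_closure_subset ?_
  intro L hL
  rw [Metric.mem_closure_iff] at hL
  refine ⟨?_, ?_, ?_, ?_⟩
  · intro x hx y hy a b ha hb hab
    refine mem_of_near fun ε hε => ?_
    obtain ⟨L', hL', hd⟩ := hL (ε / 2) (by positivity)
    obtain ⟨x', hx', dx⟩ := near_right hd hx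
    obtain ⟨y', hy', dy⟩ := near_right hd hy
    have hz' := hL'.1 hx' hy' ha hb hab
    obtain ⟨w, hw, dw⟩ := near_right (by rwa [dist_comm] at hd : dist L' L < ε / 2) hz'
    refine ⟨w, hw, ?_⟩
    have h1 : dist (a • x + b • y) (a • x' + b • y') ≤ ε / 2 := by
      have e1 : a • x + b • y - (a • x' + b • y') = a • (x - x') + b • (y - y') := by module
      rw [dist_eq_norm, e1]
      calc ‖a • (x - x') + b • (y - y')‖ ≤ ‖a • (x - x')‖ + ‖b • (y - y')‖ := norm_add_le _ _
        _ = a * dist x x' + b * dist y y' := by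
            rw [norm_smul, norm_smul, Real.norm_of_nonneg ha, Real.norm_of_nonneg hb,
              dist_eq_norm, dist_eq_norm]
        _ ≤ a * (ε / 2) + b * (ε / 2) := by gcongr
        _ = ε / 2 := by rw [← add_mul, hab, one_mul]
    calc dist (a • x + b • y) w ≤ dist (a • x + b • y) (a • x' + b • y') +
          dist (a • x' + b • y') w := dist_triangle _ _ _
      _ < ε := by linarith
  · intro x hx
    refine mem_of_near fun ε hε => ?_
    obtain ⟨L', hL', hd⟩ := hL (ε / 2) (by positivity)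
    obtain ⟨x', hx', dx⟩ := near_right hd hx
    obtain ⟨w, hw, dw⟩ := near_right (by rwa [dist_comm] at hd : dist L' L < ε / 2)
      (hL'.2.1 x' hx')
    refine ⟨w, hw, ?_⟩
    have h1 : dist (-x) (-x') = dist x x' := by rw [dist_neg_neg]
    calc dist (-x) w ≤ dist (-x) (-x') + dist (-x') w := dist_triangle _ _ _
      _ < ε := by rw [h1]; linarith
  · intro x hx
    refine mem_of_near fun ε hε => ?_
    obtain ⟨L', hL', hd⟩ := hL ε hε
    exact near_right (by rwa [dist_comm] at hd : dist L' L < ε) (hL'.2.2.1 hx)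
  · intro x hx
    rw [mem_closedBall_zero_iff]
    refine le_of_forall_pos_le_add fun ε hε => ?_
    obtain ⟨L', hL', hd⟩ := hL ε hε
    obtain ⟨x', hx', dx⟩ := near_right hd hx
    have h1 := hL'.2.2.2 hx'
    rw [mem_closedBall_zero_iff] at h1
    have h2 : ‖x‖ ≤ ‖x'‖ + dist x x' := by
      rw [dist_eq_norm]
      calc ‖x‖ = ‖x' + (x - x')‖ := by rw [add_sub_cancel]
        _ ≤ ‖x'‖ + ‖x - x'‖ := norm_add_le _ _
    linarith

/-- the exceptional set -/
def EE : Set (NonemptyCompacts Pl) := Nrm ∩ {K | Good K}ᶜ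

theorem isCompact_EE : IsCompact EE := isCompact_nrm.inter_right isOpen_good.isClosed_compl

theorem nrm_ball {E : NonemptyCompacts Pl} (hE : E ∈ Nrm) : ball (0 : Pl) 1 ⊆ E :=
  ball_subset_closedBall.trans hE.2.2.1

theorem near_sandwich {E K1 : NonemptyCompacts Pl} (hE : E ∈ Nrm)
    (h1c : Convex ℝ (K1 : Set Pl)) {ε : ℝ} (hε : 0 < ε) (hd : dist K1 E < min (1 / 2) (ε / 8)) :
    ∃ (A : Pl ≃L[ℝ] Pl) (v : Pl), (E : Set Pl) ⊆ (fun x => A x + v) '' K1 ∧
      (fun x => A x + v) '' K1 ⊆ (1 + ε) • (E : Set Pl) := by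
  set t : ℝ := min (1 / 2) (ε / 8) with ht
  have ht0 : 0 < t := lt_min (by norm_num) (by positivity)
  have ht1 : t ≤ 1 / 2 := min_le_left _ _
  have ht2 : t ≤ ε / 8 := min_le_right _ _
  obtain ⟨s1, s2⟩ := sandwich hE.1 h1c one_pos (nrm_ball hE) ht0 (by linarith) hd
  rw [div_one] at s1 s2
  have h1t : 0 < 1 - t := by linarith
  refine ⟨ContinuousLinearEquiv.smulLeft (Units.mk0 ((1 - t)⁻¹) (inv_ne_zero h1t.ne')), 0, ?_, ?_⟩
  · intro x hx
    refine ⟨(1 - t) • x, s1 ⟨x, hx, rfl⟩, ?_⟩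
    simp only [ContinuousLinearEquiv.smulLeft_apply_apply, add_zero]
    rw [Units.smul_def, Units.val_mk0, smul_smul, inv_mul_cancel₀ h1t.ne', one_smul]
  · rintro _ ⟨y, hy, rfl⟩
    obtain ⟨z, hz, rfl⟩ := s2 hy
    have hr : (1 - t)⁻¹ * (1 + t) ≤ 1 + ε := by
      rw [inv_mul_le_iff₀ h1t]
      nlinarith
    have hr0 : 0 ≤ (1 - t)⁻¹ * (1 + t) := by positivity
    have h00 : (0 : Pl) ∈ (E : Set Pl) := nrm_ball hE (mem_ball_self one_pos)
    refine ⟨((1 - t)⁻¹ * (1 + t) / (1 + ε)) • z, ?_, ?_⟩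
    · refine hE.1.smul_mem_of_zero_mem h00 hz ⟨by positivity, ?_⟩
      rw [div_le_one (by positivity)]
      exact hr
    · simp only [ContinuousLinearEquiv.smulLeft_apply_apply, add_zero]
      rw [Units.smul_def, Units.val_mk0, smul_smul, smul_smul, mul_div_cancel₀ _ (by positivity)]

/-- normalisation by a parallelogram of maximal area -/
theorem normalize {K : Set Pl} (hK : Convex ℝ K) (hKc : IsCompact K)
    (hsym : ∀ v ∈ K, -v ∈ K) (hpos : ∃ x ∈ K, ∃ y ∈ K, 0 < Rig.cr x y) :
    ∃ A : Pl ≃L[ℝ] Pl, closedBall (0 : Pl) 1 ⊆ A '' K ∧ A '' K ⊆ closedBall 0 2 := by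
  obtain ⟨x0, hx0, y0, hy0, h00⟩ := hpos
  obtain ⟨p, hp, hpmax⟩ := (hKc.prod hKc).exists_isMaxOn ⟨(x0, y0), hx0, hy0⟩
    Rig.continuous_cr.continuousOn
  obtain ⟨x, y⟩ := p
  have hx : x ∈ K := hp.1
  have hy : y ∈ K := hp.2
  set M := Rig.cr x y with hM
  have hmax : ∀ u ∈ K, ∀ w ∈ K, Rig.cr u w ≤ M := by
    intro u hu w hw
    exact hpmax (show (u, w) ∈ K ×ˢ K from ⟨hu, hw⟩)
  have hM0 : 0 < M := lt_of_lt_of_le h00 (hmax _ hx0 _ hy0)
  have habs1 : ∀ u ∈ K, |Rig.cr u y| ≤ M := by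
    intro u hu
    rw [abs_le]
    have h1 := hmax _ (hsym u hu) _ hy
    rw [Rig.cr_neg_left] at h1
    exact ⟨by linarith, hmax _ hu _ hy⟩
  have habs2 : ∀ u ∈ K, |Rig.cr x u| ≤ M := by
    intro u hu
    rw [abs_le]
    have h1 := hmax _ hx _ (hsym u hu)
    rw [Rig.cr_neg_right] at h1
    exact ⟨by linarith, hmax _ hx _ hu⟩
  set q := Real.sqrt 2 with hq
  have hq0 : 0 < q := Real.sqrt_pos.mpr (by norm_num)
  have hqq : q * q = 2 := Real.mul_self_sqrt (by norm_num)
  -- the linear equivalence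
  let e : Pl ≃ₗ[ℝ] Pl :=
    { toFun := fun v => !₂[q * (Rig.cr v y / M), q * (Rig.cr x v / M)]
      invFun := fun w => (w 0 / q) • x + (w 1 / q) • y
      map_add' := by
        intro u v
        ext i
        fin_cases i
        · simp [Rig.cr_add_left]; ring
        · simp [Rig.cr_add_right]; ring
      map_smul' := by
        intro c v
        ext i
        fin_cases i
        · simp [Rig.cr_smul_left]; ring
        · simp [Rig.cr_smul_right]; ring
      left_inv := by
        intro v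
        simp only [PiLp.toLp_apply, Matrix.cons_val_zero, Matrix.cons_val_one]
        rw [mul_div_cancel_left₀ _ hq0.ne', mul_div_cancel_left₀ _ hq0.ne']
        have h1 : Rig.cr x y • v = Rig.cr v y • x + Rig.cr x v • y := Rig.pluecker x v y
        rw [← hM] at h1
        have h2 : v = M⁻¹ • (Rig.cr v y • x + Rig.cr x v • y) := by
          rw [← h1, smul_smul, inv_mul_cancel₀ hM0.ne', one_smul]
        conv_rhs => rw [h2]
        rw [smul_add, smul_smul, smul_smul]
        congr 2 <;> field_simp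
      right_inv := by
        intro w
        ext i
        fin_cases i
        · simp [Rig.cr_add_left, Rig.cr_smul_left, Rig.cr_self, ← hM]
          field_simp
        · simp [Rig.cr_add_right, Rig.cr_smul_right, Rig.cr_self, ← hM]
          field_simp }
  have he : ∀ v, e v = !₂[q * (Rig.cr v y / M), q * (Rig.cr x v / M)] := fun v => rfl
  have hei : ∀ w, e.symm w = (w 0 / q) • x + (w 1 / q) • y := fun w => rfl
  refine ⟨e.toContinuousLinearEquiv, ?_, ?_⟩
  · intro w hw
    refine ⟨e.symm w, ?_, by simp⟩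
    rw [hei]
    rw [mem_closedBall_zero_iff, EuclideanSpace.norm_eq, Fin.sum_univ_two] at hw
    simp only [Real.norm_eq_abs, sq_abs] at hw
    have hw1 : w 0 ^ 2 + w 1 ^ 2 ≤ 1 := by
      have := Real.sqrt_le_one.mp hw
      exact this
    have h1 : |w 0| + |w 1| ≤ q := by
      rw [hq]
      apply Real.le_sqrt_of_sq_le
      have a0 := sq_abs (w 0)
      have a1 := sq_abs (w 1)
      nlinarith [sq_nonneg (|w 0| - |w 1|)]
    have hx' : ∀ c : ℝ, c • x = |c| • (if 0 ≤ c then x else -x) := by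
      intro c
      split_ifs with hc
      · rw [abs_of_nonneg hc]
      · rw [abs_of_neg (not_le.mp hc), smul_neg, neg_smul, neg_neg]
    have hy' : ∀ c : ℝ, c • y = |c| • (if 0 ≤ c then y else -y) := by
      intro c
      split_ifs with hc
      · rw [abs_of_nonneg hc]
      · rw [abs_of_neg (not_le.mp hc), smul_neg, neg_smul, neg_neg]
    rw [hx', hy']
    set X : Pl := if 0 ≤ w 0 / q then x else -x with hX
    set Y : Pl := if 0 ≤ w 1 / q then y else -y with hY
    have hXK : X ∈ K := by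
      rw [hX]; split_ifs
      · exact hx
      · exact hsym _ hx
    have hYK : Y ∈ K := by
      rw [hY]; split_ifs
      · exact hy
      · exact hsym _ hy
    have h0K : (0 : Pl) ∈ K := by
      have := hK hx (hsym x hx) (by norm_num : (0:ℝ) ≤ 1/2) (by norm_num : (0:ℝ) ≤ 1/2)
        (by norm_num)
      rwa [smul_neg, add_neg_cancel] at this
    have hsum : |w 0 / q| + |w 1 / q| ≤ 1 := by
      rw [abs_div, abs_div, abs_of_pos hq0, ← add_div, div_le_one hq0]
      exact h1
    have hX1 : X = X := rfl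
    -- convex combination with 0
    have h3 : |w 0 / q| • X + |w 1 / q| • Y + (1 - (|w 0 / q| + |w 1 / q|)) • (0 : Pl) ∈ K := by
      have hmem := hK.sum_mem (t := (Finset.univ : Finset (Fin 3)))
        (w := ![|w 0 / q|, |w 1 / q|, 1 - (|w 0 / q| + |w 1 / q|)])
        (z := ![X, Y, 0]) ?_ ?_ ?_
      · simpa [Fin.sum_univ_three] using hmem
      · intro i _
        fin_cases i
        · exact abs_nonneg _
        · exact abs_nonneg _
        · show 0 ≤ 1 - (|w 0 / q| + |w 1 / q|)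
          linarith
      · simp [Fin.sum_univ_three]
      · intro i _
        fin_cases i
        · exact hXK
        · exact hYK
        · exact h0K
    rw [smul_zero, add_zero] at h3
    exact h3
  · rintro _ ⟨v, hv, rfl⟩
    rw [mem_closedBall_zero_iff]
    have h1 : (e.toContinuousLinearEquiv : Pl → Pl) v = e v := rfl
    rw [h1, he, EuclideanSpace.norm_eq, Fin.sum_univ_two]
    simp only [Matrix.cons_val_zero, Matrix.cons_val_one, Real.norm_eq_abs, sq_abs,
      PiLp.toLp_apply]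
    rw [show (2 : ℝ) = Real.sqrt 4 by
      rw [show (4 : ℝ) = 2 ^ 2 by norm_num]; exact (Real.sqrt_sq (by norm_num)).symm]
    apply Real.sqrt_le_sqrt
    have b1 := habs1 v hv
    have b2 := habs2 v hv
    have c1 : (Rig.cr v y / M) ^ 2 ≤ 1 := by
      rw [div_pow, div_le_one (by positivity)]
      exact sq_le_sq' (by linarith [(abs_le.mp b1).1]) (abs_le.mp b1).2
    have c2 : (Rig.cr x v / M) ^ 2 ≤ 1 := by
      rw [div_pow, div_le_one (by positivity)]
      exact sq_le_sq' (by linarith [(abs_le.mp b2).1]) (abs_le.mp b2).2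
    rw [mul_pow, mul_pow, sq q, hqq]
    linarith

end C2305b
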